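import Pool.Agent.H193.OZ.Stm

/-!
# OZ-L: closure of `VN`, symmetry of `VNIso`, left translations (for helper193)
-/

set_option autoImplicit false

namespace Pool.Agent.H82.OZL

open Pool.Agent.H193.OZ
open scoped ComplexConjugate InnerProductSpace

theorem mem_rt {G : Type} (e : G ≃ G) (f : L2 G) : Memℓp (fun x => f (e x)) 2 := by
  have h : 0 < (2 : ENNReal).toReal := by norm_num
  have h1 := (memℓp_gen_iff h).1 (lp.memℓp f)
  rw [memℓp_gen_iff h]
  exact (Equiv.summable_iff e (f := fun i => ‖f i‖ ^ (2 : ENNReal).toReal)).2 h1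

/-- the translation by a permutation, as a linear map -/
noncomputable def rtl {G : Type} (e : G ≃ G) : L2 G →ₗ[ℂ] L2 G where
  toFun f := ⟨fun x => f (e x), mem_rt e f⟩
  map_add' f g := by
    ext x
    rfl
  map_smul' c f := by
    ext x
    rfl

/-- the translation by a permutation is an isometry -/
noncomputable def rti {G : Type} (e : G ≃ G) : L2 G →ₗᵢ[ℂ] L2 G where
  toLinearMap := rtl e
  norm_map' f := by
    have h : 0 < (2 : ENNReal).toReal := by norm_num
    rw [lp.norm_eq_tsum_rpow h, lp.norm_eq_tsum_rpow h]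
    congr 1
    exact Equiv.tsum_eq e (fun i => ‖f i‖ ^ (2 : ENNReal).toReal)

/-- the translation by a permutation -/
noncomputable def rt {G : Type} (e : G ≃ G) : Bd G := (rti e).toContinuousLinearMap

theorem rt_apply {G : Type} (e : G ≃ G) (f : L2 G) (x : G) : (rt e f) x = f (e x) := rfl

theorem star_rt {G : Type} (e : G ≃ G) : star (rt e) = rt e.symm := by
  rw [ContinuousLinearMap.star_eq_adjoint, eq_comm, ContinuousLinearMap.eq_adjoint_iff]
  intro f g
  rw [lp.inner_eq_tsum, lp.inner_eq_tsum]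
  rw [← Equiv.tsum_eq e (fun i => ⟪(rt e.symm f) i, g i⟫_ℂ)]
  refine tsum_congr fun i => ?_
  rw [rt_apply, rt_apply, Equiv.symm_apply_apply]

theorem mem_VN {G : Type} [Group G] (T : Bd G) :
    T ∈ VN G ↔ ∀ g : G, T * rt (Equiv.mulRight g) = rt (Equiv.mulRight g) * T := by
  constructor
  · intro h g
    refine ContinuousLinearMap.ext fun f => ?_
    ext x
    exact h g f (rt (Equiv.mulRight g) f) (fun x => rfl) x
  · intro h g f f' hf x
    have h1 : f' = rt (Equiv.mulRight g) f := by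
      ext x
      exact hf x
    have h2 := congrArg (fun S : Bd G => (S f) x) (h g)
    rw [h1]
    exact h2

theorem star_mem {G : Type} [Group G] {T : Bd G} (h : T ∈ VN G) : star T ∈ VN G := by
  rw [mem_VN] at h ⊢
  intro g
  have h1 := congrArg star (h g⁻¹)
  have h2 : star (rt (Equiv.mulRight g⁻¹)) = rt (Equiv.mulRight g) := by
    rw [star_rt]
    congr 1
    ext x
    simp
  rw [star_mul, star_mul, h2] at h1
  exact h1.symm

theorem s_cl : S_cl := by
  intro G _
  refine ⟨?_, ?_, ?_⟩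
  · rw [mem_VN]
    intro g
    rw [one_mul, mul_one]
  · intro x hx y hy
    rw [mem_VN] at hx hy
    rw [mem_VN, mem_VN]
    refine ⟨fun g => ?_, fun g => ?_⟩
    · rw [add_mul, mul_add, hx g, hy g]
    · rw [mul_assoc, hy g, ← mul_assoc, hx g, mul_assoc]
  · intro x hx
    refine ⟨star_mem hx, fun c => ?_⟩
    rw [mem_VN] at hx ⊢
    intro g
    rw [smul_mul_assoc, mul_smul_comm, hx g]

theorem s_sym : S_sym := by
  rintro G H _ _ ⟨Φ, hbij, hΦ⟩
  obtain ⟨-, cl1, cl2⟩ := s_cl G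
  have hinv := hbij.invOn_invFunOn
  have hmap : Set.MapsTo (Function.invFunOn Φ (VN G)) (VN H) (VN G) := by
    intro a ha
    exact Function.invFunOn_mem (hbij.surjOn ha)
  have hr : ∀ a ∈ VN H, Φ (Function.invFunOn Φ (VN G) a) = a := fun a ha =>
    Function.invFunOn_eq (hbij.surjOn ha)
  refine ⟨Function.invFunOn Φ (VN G), ⟨hmap, ?_, ?_⟩, ?_⟩
  · intro a ha b hb hab
    rw [← hr a ha, ← hr b hb, hab]
  · intro x hx
    exact ⟨Φ x, hbij.mapsTo hx, hbij.injOn (hmap (hbij.mapsTo hx)) hx (hr _ (hbij.mapsTo hx))⟩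
  · intro a ha b hb
    have ha' := hmap ha
    have hb' := hmap hb
    obtain ⟨-, clH1, clH2⟩ := s_cl H
    obtain ⟨h1, h2, h3, h4⟩ := hΦ _ ha' _ hb'
    rw [hr a ha, hr b hb] at h1 h2
    rw [hr a ha] at h3
    refine ⟨?_, ?_, ?_, fun c => ?_⟩
    · apply hbij.injOn (hmap (clH1 a ha b hb).1) (cl1 _ ha' _ hb').1
      rw [hr _ (clH1 a ha b hb).1, h1]
    · apply hbij.injOn (hmap (clH1 a ha b hb).2) (cl1 _ ha' _ hb').2
      rw [hr _ (clH1 a ha b hb).2, h2]
    · apply hbij.injOn (hmap (clH2 a ha).1) (cl2 _ ha').1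
      rw [hr _ (clH2 a ha).1, h3]
    · apply hbij.injOn (hmap ((clH2 a ha).2 c)) ((cl2 _ ha').2 c)
      rw [hr _ ((clH2 a ha).2 c), h4 c, hr a ha]

theorem s_L : S_L := by
  intro G _
  refine ⟨fun x => rt (Equiv.mulLeft x⁻¹), fun x f y => rfl, fun x => ?_, ?_, fun x y => ?_,
    fun x => ?_⟩
  · intro g f f' hf y
    show f' (x⁻¹ * y) = f (x⁻¹ * (y * g))
    rw [hf, mul_assoc]
  · refine ContinuousLinearMap.ext fun f => ?_
    ext y
    show f ((1 : G)⁻¹ * y) = f y
    rw [inv_one, one_mul]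
  · refine ContinuousLinearMap.ext fun f => ?_
    ext z
    show f ((x * y)⁻¹ * z) = f (y⁻¹ * (x⁻¹ * z))
    rw [mul_inv_rev, mul_assoc]
  · rw [star_rt]
    congr 1
    ext y
    simp

end Pool.Agent.H82.OZL
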